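import Pool.Agent.Lib.MP_fcf01e_gt.Fin2

set_option autoImplicit false

namespace Pool.Agent.Results.MP_fcf01e_gt.InfiniteNormalCurvature

open Pool.Agent.Lib.MP_364e81_gt MeasureTheory
open scoped ContDiff

/-- There is a complete stationary surface `x : ℂ → ℝ⁴₁` with `∫ |K| dM < ∞` and
`∫ |K^⊥| dM = ∞`. -/
theorem result : ∃ x e3 e4 : ℂ → Fin 4 → ℝ,
    ContDiff ℝ ∞ x ∧ IsSpacelike x ∧ IsStationary x ∧ IsCompleteSurface x ∧
    IsNormalFrame x e3 e4 ∧
    Integrable (fun z => |gaussK x z| * area x z) ∧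
    ∫⁻ z, ENNReal.ofReal (|normalK x e3 e4 z| * area x z) = ⊤ :=
  Pool.Agent.StatSurf.main2

end Pool.Agent.Results.MP_fcf01e_gt.InfiniteNormalCurvature
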